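import Pool.Agent.QSB.StmtsT

/-! Row SYU of squad QSB: the forms of maximal index satisfy `Sym`. -/

set_option autoImplicit false

namespace Pool.Agent.QSB.H88

open Matrix Finset Pool.Agent.QSX Pool.Agent.QSN Pool.Agent.QSB

section

variable {p k : ℕ}

/-- the matrices of blocks `x i j ∈ 𝔻` with `x (rev j) (rev i) = - s i * s j • (x i j)ᵀ` -/
def gU (p : ℕ) {k : ℕ} (𝔻 : Subalgebra ℝ (Matrix (Fin k) (Fin k) ℝ)) (ε : ℝ) :
    Submodule ℝ (Matrix (Fin (2 * p)) (Fin (2 * p)) (Matrix (Fin k) (Fin k) ℝ)) where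
  carrier := {x | (∀ i j, x i j ∈ 𝔻) ∧
    ∀ i j, x (Fin.rev j) (Fin.rev i) = (-(sU p ε i * sU p ε j)) • (x i j)ᵀ}
  add_mem' := by
    intro x y hx hy
    refine ⟨fun i j => ?_, fun i j => ?_⟩
    · rw [Matrix.add_apply]
      exact 𝔻.add_mem (hx.1 i j) (hy.1 i j)
    · rw [Matrix.add_apply, Matrix.add_apply, hx.2 i j, hy.2 i j, Matrix.transpose_add, smul_add]
  zero_mem' := ⟨fun _ _ => 𝔻.zero_mem, fun i j => by simp⟩
  smul_mem' := by
    intro r x hx
    refine ⟨fun i j => ?_, fun i j => ?_⟩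
    · rw [Matrix.smul_apply]
      exact 𝔻.smul_mem (hx.1 i j) r
    · rw [Matrix.smul_apply, Matrix.smul_apply, hx.2 i j, Matrix.transpose_smul, smul_comm]

theorem gU_key {𝔻 : Subalgebra ℝ (Matrix (Fin k) (Fin k) ℝ)} {ε : ℝ} (hε : ε * ε = 1)
    {x y : Matrix (Fin (2 * p)) (Fin (2 * p)) (Matrix (Fin k) (Fin k) ℝ)}
    (hx : x ∈ gU p 𝔻 ε) (hy : y ∈ gU p 𝔻 ε) (i j : Fin (2 * p)) :
    (x * y) (Fin.rev j) (Fin.rev i) = (sU p ε i * sU p ε j) • ((y * x) i j)ᵀ := by
  rw [Matrix.mul_apply, Matrix.mul_apply, Matrix.transpose_sum, Finset.smul_sum,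
    ← Equiv.sum_comp Fin.revPerm]
  refine Finset.sum_congr rfl fun l _ => ?_
  rw [Fin.revPerm_apply, hx.2 l j, hy.2 i l, Matrix.smul_mul, Matrix.mul_smul, smul_smul,
    Matrix.transpose_mul]
  congr 1
  have := sU_sq ε hε l
  linear_combination (sU p ε i * sU p ε j) * this

theorem gU_lie {𝔻 : Subalgebra ℝ (Matrix (Fin k) (Fin k) ℝ)} {ε : ℝ} (hε : ε * ε = 1)
    {x y : Matrix (Fin (2 * p)) (Fin (2 * p)) (Matrix (Fin k) (Fin k) ℝ)}
    (hx : x ∈ gU p 𝔻 ε) (hy : y ∈ gU p 𝔻 ε) : x * y - y * x ∈ gU p 𝔻 ε := by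
  refine ⟨fun i j => ?_, fun i j => ?_⟩
  · rw [Matrix.sub_apply, Matrix.mul_apply, Matrix.mul_apply]
    exact 𝔻.sub_mem (𝔻.sum_mem fun l _ => 𝔻.mul_mem (hx.1 i l) (hy.1 l j))
      (𝔻.sum_mem fun l _ => 𝔻.mul_mem (hy.1 i l) (hx.1 l j))
  · rw [Matrix.sub_apply, Matrix.sub_apply, gU_key hε hx hy, gU_key hε hy hx,
      Matrix.transpose_sub, neg_smul, smul_sub]
    abel

theorem gU_tr {𝔻 : Subalgebra ℝ (Matrix (Fin k) (Fin k) ℝ)} {ε : ℝ} (hD : Div 𝔻)
    {x : Matrix (Fin (2 * p)) (Fin (2 * p)) (Matrix (Fin k) (Fin k) ℝ)}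
    (hx : x ∈ gU p 𝔻 ε) :
    (Matrix.of fun i j => (x j i)ᵀ : Matrix (Fin (2 * p)) (Fin (2 * p))
      (Matrix (Fin k) (Fin k) ℝ)) ∈ gU p 𝔻 ε := by
  refine ⟨fun i j => ?_, fun i j => ?_⟩
  · rw [Matrix.of_apply]
    exact hD.1 _ (hx.1 j i)
  · rw [Matrix.of_apply, Matrix.of_apply, hx.2 j i, Matrix.transpose_smul,
      Matrix.transpose_transpose, mul_comm (sU p ε j)]

theorem blk_tr (n : ℕ) (x : Matrix (Fin n) (Fin n) (Matrix (Fin k) (Fin k) ℝ)) :
    (blk k n x)ᵀ = blk k n (Matrix.of fun i j => (x j i)ᵀ) := by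
  apply blk_ext
  intro i i' j j'
  rw [Matrix.transpose_apply, blk_apply, blk_apply, Matrix.of_apply, Matrix.transpose_apply]

/-- the regular element -/
noncomputable def aU (p : ℕ) (i : Fin (2 * p)) : ℝ := (p : ℝ) - (i : ℕ) - 1 / 2

theorem aU_rev (i : Fin (2 * p)) : aU p (Fin.rev i) = - aU p i := by
  unfold aU
  have h := i.2
  rw [Fin.val_rev, Nat.cast_sub (by omega)]
  push_cast
  ring

theorem aU_lt (i j : Fin (2 * p)) : aU p j < aU p i ↔ i < j := by
  unfold aU
  rw [Fin.lt_def]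
  constructor
  · intro h
    have : ((i : ℕ) : ℝ) < ((j : ℕ) : ℝ) := by linarith
    exact_mod_cast this
  · intro h
    have : ((i : ℕ) : ℝ) < ((j : ℕ) : ℝ) := by exact_mod_cast h
    linarith

theorem aU_ne {i j : Fin (2 * p)} (h : i ≠ j) : aU p i ≠ aU p j := by
  rcases lt_or_gt_of_ne h with h | h
  · exact ((aU_lt i j).2 h).ne'
  · exact ((aU_lt j i).2 h).ne

end

/-- **SYU** -/
theorem syu (dsc : DscStmt) : SyuStmt := by
  intro k p 𝔻 ε hε hk hD
  refine ⟨{
    g := (gU p 𝔻 ε).map (blk k (2 * p)).toLinearMap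
    lie := ?_
    tr := ?_
    b_mem := ?_
    a₀ := ⟨cst k (2 * p) (aU p), ⟨aU p, aU_rev, rfl⟩⟩
    n_mem := ?_
    reg := ?_ }⟩
  · rintro _ ⟨x, hx, rfl⟩ _ ⟨y, hy, rfl⟩
    refine ⟨x * y - y * x, gU_lie hε hx hy, ?_⟩
    show blk k (2 * p) (x * y - y * x) = blk k (2 * p) x * blk k (2 * p) y -
      blk k (2 * p) y * blk k (2 * p) x
    rw [map_sub, map_mul, map_mul]
  · rintro _ ⟨x, hx, rfl⟩
    exact ⟨_, gU_tr hD hx, (blk_tr _ x).symm⟩
  · intro (c : Fin (2 * p * k) → ℝ)
    constructor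
    · rintro ⟨c', hc', rfl⟩
      refine ⟨dia k c', ⟨fun i j => ?_, fun i j => ?_⟩, blk_dia c'⟩
      · unfold dia
        by_cases h : i = j
        · subst h
          rw [diagonal_apply_eq]
          exact 𝔻.smul_mem 𝔻.one_mem _
        · rw [diagonal_apply_ne _ h]
          exact 𝔻.zero_mem
      · unfold dia
        by_cases h : i = j
        · subst h
          rw [diagonal_apply_eq, diagonal_apply_eq, hc' i, Matrix.transpose_smul,
            Matrix.transpose_one, smul_smul, sU_sq ε hε i]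
          congr 1
          ring
        · rw [diagonal_apply_ne _ h, diagonal_apply_ne, Matrix.transpose_zero, smul_zero]
          intro h2
          exact h (Fin.rev_injective h2).symm
    · rintro ⟨x, hx, hxc⟩
      have hxc' : blk k (2 * p) x = diagonal c := hxc
      have he : ∀ i i' j j', x i i' j j' = (diagonal c : Matrix (Fin (2 * p * k))
          (Fin (2 * p * k)) ℝ) (finProdFinEquiv (i, j)) (finProdFinEquiv (i', j')) := by
        intro i i' j j'
        have h0 := congrFun (congrFun hxc' (finProdFinEquiv (i, j))) (finProdFinEquiv (i', j'))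
        rw [blk_apply] at h0
        exact h0
      have hsym : ∀ i, (x i i)ᵀ = x i i := by
        intro i
        ext j j'
        rw [Matrix.transpose_apply, he, he]
        by_cases h : j = j'
        · rw [h]
        · rw [diagonal_apply_ne, diagonal_apply_ne]
          · intro h2
            exact h (Prod.ext_iff.1 (finProdFinEquiv.injective h2)).2
          · intro h2
            exact h (Prod.ext_iff.1 (finProdFinEquiv.injective h2)).2.symm
      choose c' hc' using fun i => dsc k 𝔻 hk hD (x i i) (hx.1 i i) (hsym i)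
      refine ⟨c', fun i => ?_, ?_⟩
      · have h1 := hx.2 i i
        rw [hc' (Fin.rev i), hc' i, sU_sq ε hε i, Matrix.transpose_smul, Matrix.transpose_one,
          smul_smul] at h1
        have h2 := congrFun (congrFun h1 ⟨0, hk⟩) ⟨0, hk⟩
        rw [Matrix.smul_apply, Matrix.smul_apply, Matrix.one_apply_eq, smul_eq_mul, smul_eq_mul,
          mul_one, mul_one] at h2
        rw [h2]
        ring
      · funext q
        obtain ⟨⟨i, j⟩, rfl⟩ := finProdFinEquiv.surjective q
        rw [cst_apply]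
        have h1 := he i i j j
        rw [diagonal_apply_eq, hc' i, Matrix.smul_apply, Matrix.one_apply_eq, smul_eq_mul,
          mul_one] at h1
        exact h1.symm
  · intro z
    constructor
    · rintro ⟨x, hx, rfl⟩
      refine ⟨⟨x, ⟨hx.1.1, hx.2⟩, rfl⟩, ?_⟩
      intro q r hqr
      obtain ⟨⟨i, j⟩, rfl⟩ := finProdFinEquiv.surjective q
      obtain ⟨⟨i', j'⟩, rfl⟩ := finProdFinEquiv.surjective r
      rw [blk_apply] at hqr
      show cst k (2 * p) (aU p) (finProdFinEquiv (i', j')) <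
        cst k (2 * p) (aU p) (finProdFinEquiv (i, j))
      rw [cst_apply, cst_apply, aU_lt]
      by_contra hc
      rw [hx.1.2 i i' (not_lt.1 hc)] at hqr
      exact hqr rfl
    · rintro ⟨⟨x, hx, rfl⟩, h⟩
      refine ⟨x, ⟨⟨hx.1, fun i i' hii => ?_⟩, hx.2⟩, rfl⟩
      ext j j'
      by_contra hne
      have h1 : (blk k (2 * p) x) (finProdFinEquiv (i, j)) (finProdFinEquiv (i', j')) ≠ 0 := by
        rw [blk_apply]
        exact hne
      have h2 : cst k (2 * p) (aU p) (finProdFinEquiv (i', j')) <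
        cst k (2 * p) (aU p) (finProdFinEquiv (i, j)) := h _ _ h1
      rw [cst_apply, cst_apply, aU_lt] at h2
      exact absurd h2 (not_lt.2 hii)
  · rintro _ ⟨x, hx, rfl⟩ hsym hcomm
    have hsym' : (blk k (2 * p) x)ᵀ = blk k (2 * p) x := hsym
    have hcomm' : diagonal (cst k (2 * p) (aU p)) * blk k (2 * p) x =
      blk k (2 * p) x * diagonal (cst k (2 * p) (aU p)) := hcomm
    have hoff : ∀ i i', i ≠ i' → x i i' = 0 := by
      intro i i' hii
      ext j j'
      have h1 := congrFun (congrFun hcomm' (finProdFinEquiv (i, j))) (finProdFinEquiv (i', j'))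
      rw [Matrix.diagonal_mul, Matrix.mul_diagonal, blk_apply, cst_apply, cst_apply] at h1
      have h2 : (aU p i - aU p i') * x i i' j j' = 0 := by linarith
      rcases mul_eq_zero.1 h2 with h3 | h3
      · exact absurd (sub_eq_zero.1 h3) (aU_ne hii)
      · exact h3
    have hs : ∀ i, (x i i)ᵀ = x i i := by
      intro i
      ext j j'
      have h1 := congrFun (congrFun hsym' (finProdFinEquiv (i, j))) (finProdFinEquiv (i, j'))
      rw [Matrix.transpose_apply, blk_apply, blk_apply] at h1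
      rw [Matrix.transpose_apply]
      exact h1
    choose c' hc' using fun i => dsc k 𝔻 hk hD (x i i) (hx.1 i i) (hs i)
    refine ⟨cst k (2 * p) c', ?_⟩
    show blk k (2 * p) x = diagonal (cst k (2 * p) c')
    rw [← blk_dia]
    congr 1
    ext1 i i'
    unfold dia
    by_cases h : i = i'
    · subst h
      rw [diagonal_apply_eq]
      exact hc' i
    · rw [diagonal_apply_ne _ h]
      exact hoff i i' h

end Pool.Agent.QSB.H88
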